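import Pool.Agent.W125.DimH

/-!
# Intersection graphs on subdivisions of the butterfly graph are universal

For `Y` the butterfly (two triangles sharing a vertex) every finite group is the automorphism group
of an intersection graph of connected subgraphs of a subdivision of `Y`.
-/

set_option autoImplicit false

namespace Pool.Agent.Results.MP_f0827e_co.Butterfly

open Pool.Agent.W125.Dim

section Defs

variable {m : ℕ} (Y : SimpleGraph (Fin m)) (len : Fin m × Fin m → ℕ)

/-- The edges of `Y`, each given by its end-vertices in increasing order. -/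
abbrev Arc : Type := {p : Fin m × Fin m // p.1 < p.2 ∧ Y.Adj p.1 p.2}

/-- The vertices of the subdivision of `Y` in which `len (a, b)` new vertices are put on the edge
`ab` (`a < b`): those of `Y` and the new ones. -/
abbrev SubV : Type := Fin m ⊕ (Σ p : Arc Y, Fin (len p.1))

/-- The vertex at position `k` of the path replacing the edge `p`: position `0` is the first
end-vertex, positions `1, …, len p` are the new vertices, position `len p + 1` is the second
end-vertex. -/
def pos (p : Arc Y) (k : ℕ) : SubV Y len :=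
  if k = 0 then .inl p.1.1 else if h : k - 1 < len p.1 then .inr ⟨p, ⟨k - 1, h⟩⟩ else .inl p.1.2

/-- The subdivision of `Y`: every edge is replaced by its path. -/
def subdivision : SimpleGraph (SubV Y len) :=
  SimpleGraph.fromRel fun x y => ∃ p : Arc Y, ∃ k ≤ len p.1, x = pos Y len p k ∧
    y = pos Y len p (k + 1)

/-- `X` is an intersection graph of connected subgraphs of a subdivision of `Y`. -/
def InClass {U : Type} (X : SimpleGraph U) : Prop :=
  ∃ (len : Fin m × Fin m → ℕ) (S : U → (subdivision Y len).Subgraph),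
    (∀ u, (S u).Connected) ∧
    ∀ u v, u ≠ v → (X.Adj u v ↔ ((S u).verts ∩ (S v).verts).Nonempty)

/-- Every finite group is the automorphism group of a finite graph in the class of `Y`. -/
def Universal : Prop :=
  ∀ (G : Type) [Group G] [Finite G], ∃ (n : ℕ) (X : SimpleGraph (Fin n)),
    InClass Y X ∧ Nonempty ((X ≃g X) ≃* G)

/-- The butterfly: two triangles sharing one vertex. -/
def butterfly : SimpleGraph (Fin 5) :=
  SimpleGraph.fromRel fun i j => (i, j) ∈ ({(0, 1), (0, 2), (1, 2), (0, 3), (0, 4), (3, 4)} :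
    Finset (Fin 5 × Fin 5))

end Defs

instance : DecidableRel butterfly.Adj := fun i j => by
  unfold butterfly
  rw [SimpleGraph.fromRel_adj]
  infer_instance

/-! ### General facts on subdivisions -/

section General

variable {m : ℕ} {Y : SimpleGraph (Fin m)} {len : Fin m × Fin m → ℕ}

lemma pos_zero (p : Arc Y) : pos Y len p 0 = .inl p.1.1 := by simp [pos]

lemma pos_succ (p : Arc Y) (k : ℕ) (h : k < len p.1) :
    pos Y len p (k + 1) = .inr ⟨p, ⟨k, h⟩⟩ := by
  simp [pos, h]

lemma pos_last (p : Arc Y) : pos Y len p (len p.1 + 1) = .inl p.1.2 := by simp [pos]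

lemma pos_inj (p q : Arc Y) (k l : ℕ) (hk : k ≤ len p.1 + 1) (hl : l < len q.1)
    (h : pos Y len p k = pos Y len q (l + 1)) : p = q ∧ k = l + 1 := by
  rw [pos_succ q l hl] at h
  rcases Nat.eq_zero_or_pos k with rfl | hk0
  · rw [pos_zero] at h
    cases h
  · obtain ⟨k, rfl⟩ : ∃ k', k = k' + 1 := ⟨k - 1, by omega⟩
    rcases Nat.lt_or_ge k (len p.1) with h1 | h1
    · rw [pos_succ p k h1] at h
      have h2 := Sum.inr_injective h
      rw [Sigma.mk.injEq] at h2
      obtain ⟨rfl, h3⟩ := h2
      rw [heq_eq_eq, Fin.mk_eq_mk] at h3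
      exact ⟨rfl, by rw [h3]⟩
    · have : k = len p.1 := by omega
      rw [this, pos_last] at h
      cases h

lemma pos_adj (p : Arc Y) (k : ℕ) (hk : k ≤ len p.1) :
    (subdivision Y len).Adj (pos Y len p k) (pos Y len p (k + 1)) := by
  unfold subdivision
  rw [SimpleGraph.fromRel_adj]
  refine ⟨?_, Or.inl ⟨p, k, hk, rfl, rfl⟩⟩
  intro h
  rcases Nat.lt_or_ge k (len p.1) with h1 | h1
  · have := (pos_inj p p k k (by omega) h1 h).2
    omega
  · have h2 : k = len p.1 := by omega
    rw [h2, pos_last] at h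
    rcases Nat.eq_zero_or_pos (len p.1) with h3 | h3
    · rw [h3, pos_zero] at h
      have := Sum.inl_injective h
      have hp := p.2.1
      rw [this] at hp
      exact lt_irrefl _ hp
    · obtain ⟨l, hl⟩ : ∃ l, len p.1 = l + 1 := ⟨len p.1 - 1, by omega⟩
      have h4 : pos Y len p (len p.1) = .inr ⟨p, ⟨l, by omega⟩⟩ := by
        conv_lhs => rw [hl]
        exact pos_succ p l (by omega)
      rw [h4] at h
      cases h

lemma reach_up (s : Set (SubV Y len)) (r : s) (p : Arc Y) (i : ℕ) (hi : i ≤ len p.1 + 1)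
    (hs : ∀ k, k ≤ i → pos Y len p k ∈ s)
    (h0 : ((subdivision Y len).induce s).Reachable r ⟨pos Y len p 0, hs 0 (Nat.zero_le _)⟩) :
    ((subdivision Y len).induce s).Reachable r ⟨pos Y len p i, hs i (le_refl _)⟩ := by
  induction i with
  | zero => exact h0
  | succ i ih =>
    have h1 := ih (by omega) (fun k hk => hs k (by omega)) h0
    refine h1.trans (SimpleGraph.Adj.reachable ?_)
    exact pos_adj p i (by omega)

lemma reach_down (s : Set (SubV Y len)) (r : s) (p : Arc Y) (d : ℕ) (hd : d ≤ len p.1 + 1)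
    (hs : ∀ k, len p.1 + 1 - d ≤ k → k ≤ len p.1 + 1 → pos Y len p k ∈ s)
    (h0 : ((subdivision Y len).induce s).Reachable r
      ⟨pos Y len p (len p.1 + 1), hs _ (by omega) (le_refl _)⟩) :
    ((subdivision Y len).induce s).Reachable r
      ⟨pos Y len p (len p.1 + 1 - d), hs _ (le_refl _) (by omega)⟩ := by
  induction d with
  | zero => exact h0
  | succ d ih =>
    have h1 := ih (by omega) (fun k hk => hs k (by omega)) h0
    refine h1.trans (SimpleGraph.Adj.reachable ?_)
    have h2 := pos_adj (len := len) p (len p.1 + 1 - (d + 1)) (by omega)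
    have h3 : len p.1 + 1 - (d + 1) + 1 = len p.1 + 1 - d := by omega
    rw [h3] at h2
    exact h2.symm

end General

/-! ### The subdivision of the butterfly -/

/-- Only two edges are subdivided. -/
def L (N M : ℕ) (p : Fin 5 × Fin 5) : ℕ := if p = (1, 2) then N else if p = (3, 4) then M else 0

def e12 : Arc butterfly := ⟨(1, 2), by decide⟩
def e34 : Arc butterfly := ⟨(3, 4), by decide⟩

lemma L12 (N M : ℕ) : L N M e12.1 = N := by simp [L, e12]
lemma L34 (N M : ℕ) : L N M e34.1 = M := by simp [L, e34]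

/-- The new vertices of the first triangle. -/
def P (N M : ℕ) (i : Fin N) : SubV butterfly (L N M) := pos butterfly (L N M) e12 (i + 1)

/-- The new vertices of the second triangle. -/
def Q (N M : ℕ) (j : Fin M) : SubV butterfly (L N M) := pos butterfly (L N M) e34 (j + 1)

lemma e12_ne : e12 ≠ e34 := by decide

lemma P_inj {N M : ℕ} {i i' : Fin N} (h : P N M i = P N M i') : i = i' := by
  have := (pos_inj e12 e12 (i + 1) i' (by rw [L12]; omega) (by rw [L12]; omega) h).2
  exact Fin.ext (by omega)

lemma Q_inj {N M : ℕ} {i i' : Fin M} (h : Q N M i = Q N M i') : i = i' := by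
  have := (pos_inj e34 e34 (i + 1) i' (by rw [L34]; omega) (by rw [L34]; omega) h).2
  exact Fin.ext (by omega)

lemma P_ne_Q {N M : ℕ} (i : Fin N) (j : Fin M) : P N M i ≠ Q N M j := fun h =>
  e12_ne (pos_inj e12 e34 (i + 1) j (by rw [L12]; omega) (by rw [L34]; omega) h).1

lemma P_ne_inl {N M : ℕ} (i : Fin N) (v : Fin 5) : P N M i ≠ .inl v := by
  unfold P
  rw [pos_succ e12 i (by rw [L12]; exact i.2)]
  intro h
  cases h

lemma Q_ne_inl {N M : ℕ} (i : Fin M) (v : Fin 5) : Q N M i ≠ .inl v := by
  unfold Q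
  rw [pos_succ e34 i (by rw [L34]; exact i.2)]
  intro h
  cases h

/-- Everything but one new vertex of each triangle. -/
def T (N M : ℕ) (i : Fin N) (j : Fin M) : Set (SubV butterfly (L N M)) :=
  {x | x ≠ P N M i ∧ x ≠ Q N M j}

lemma adj_zero (N M : ℕ) (v : Fin 5) (hv : v ≠ 0) :
    (subdivision butterfly (L N M)).Adj (.inl 0) (.inl v) := by
  have h1 : ∀ v : Fin 5, v ≠ 0 → 0 < v ∧ butterfly.Adj 0 v := by decide
  have h2 := h1 v hv
  have h3 : L N M (0, v) = 0 := by simp [L]
  have h4 := pos_adj (len := L N M) (⟨(0, v), h2⟩ : Arc butterfly) 0 (Nat.zero_le _)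
  rw [pos_zero] at h4
  have h5 : pos butterfly (L N M) (⟨(0, v), h2⟩ : Arc butterfly) (0 + 1) = .inl v := by
    have := pos_last (len := L N M) (⟨(0, v), h2⟩ : Arc butterfly)
    rw [h3] at this
    exact this
  rw [h5] at h4
  exact h4

lemma inl_mem {N M : ℕ} (i : Fin N) (j : Fin M) (v : Fin 5) : .inl v ∈ T N M i j :=
  ⟨(P_ne_inl i v).symm, (Q_ne_inl j v).symm⟩

lemma T_conn (N M : ℕ) (i : Fin N) (j : Fin M) :
    ((subdivision butterfly (L N M)).induce (T N M i j)).Connected := by
  have hroot : ∀ v : Fin 5, ((subdivision butterfly (L N M)).induce (T N M i j)).Reachable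
      ⟨.inl 0, inl_mem i j 0⟩ ⟨.inl v, inl_mem i j v⟩ := by
    intro v
    by_cases hv : v = 0
    · subst hv
      exact SimpleGraph.Reachable.refl _
    · apply SimpleGraph.Adj.reachable
      exact adj_zero N M v hv
  have hpos1 : ∀ k, k ≤ L N M e12.1 + 1 → k ≠ i + 1 → pos butterfly (L N M) e12 k ∈ T N M i j := by
    intro k hk hki
    refine ⟨fun h => ?_, fun h => ?_⟩
    · exact hki (pos_inj e12 e12 k i hk (by rw [L12]; exact i.2) h).2
    · exact e12_ne (pos_inj e12 e34 k j hk (by rw [L34]; exact j.2) h).1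
  have hpos2 : ∀ k, k ≤ L N M e34.1 + 1 → k ≠ j + 1 → pos butterfly (L N M) e34 k ∈ T N M i j := by
    intro k hk hki
    refine ⟨fun h => ?_, fun h => ?_⟩
    · exact e12_ne (pos_inj e34 e12 k i hk (by rw [L12]; exact i.2) h).1.symm
    · exact hki (pos_inj e34 e34 k j hk (by rw [L34]; exact j.2) h).2
  have main : ∀ (e : Arc butterfly) (r : ℕ), r < L N M e.1 →
      (∀ k, k ≤ L N M e.1 + 1 → k ≠ r + 1 → pos butterfly (L N M) e k ∈ T N M i j) →
      ∀ k (hk : pos butterfly (L N M) e k ∈ T N M i j), k ≤ L N M e.1 + 1 → k ≠ r + 1 →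
      ((subdivision butterfly (L N M)).induce (T N M i j)).Reachable
        ⟨.inl 0, inl_mem i j 0⟩ ⟨pos butterfly (L N M) e k, hk⟩ := by
    intro e r hr hT k hk hk1 hk2
    rcases Nat.lt_or_ge k (r + 1) with h1 | h1
    · refine reach_up (T N M i j) _ e k hk1 (fun l hl => hT l (by omega) (by omega)) ?_
      have := hroot e.1.1
      convert this using 2
      exact pos_zero e
    · have h2 := reach_down (T N M i j) ⟨.inl 0, inl_mem i j 0⟩ e (L N M e.1 + 1 - k) (by omega)
        (fun l hl hl' => hT l hl' (by omega)) (by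
          have := hroot e.1.2
          convert this using 2
          exact pos_last e)
      convert h2 using 3
      omega
  have hall : ∀ x : T N M i j, ((subdivision butterfly (L N M)).induce (T N M i j)).Reachable
      ⟨.inl 0, inl_mem i j 0⟩ x := by
    rintro ⟨x, hx⟩
    rcases x with v | ⟨e, k, hk⟩
    · exact hroot v
    · have he : e = e12 ∨ e = e34 := by
        unfold L at hk
        split_ifs at hk with h1 h2
        · exact Or.inl (Subtype.ext h1)
        · exact Or.inr (Subtype.ext h2)
        · omega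
      have hx' : pos butterfly (L N M) e (k + 1) ∈ T N M i j := by
        rw [pos_succ e k hk]
        exact hx
      have hgoal : ((subdivision butterfly (L N M)).induce (T N M i j)).Reachable
          ⟨.inl 0, inl_mem i j 0⟩ ⟨pos butterfly (L N M) e (k + 1), hx'⟩ := by
        rcases he with rfl | rfl
        · refine main e12 i (by rw [L12]; exact i.2) hpos1 (k + 1) hx' (by omega) ?_
          intro h
          apply hx'.1
          show pos butterfly (L N M) e12 (k + 1) = pos butterfly (L N M) e12 (i + 1)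
          rw [h]
        · refine main e34 j (by rw [L34]; exact j.2) hpos2 (k + 1) hx' (by omega) ?_
          intro h
          apply hx'.2
          show pos butterfly (L N M) e34 (k + 1) = pos butterfly (L N M) e34 (j + 1)
          rw [h]
      convert hgoal using 2
      exact (pos_succ e k hk).symm
  refine (SimpleGraph.connected_iff _).2 ⟨fun x y => (hall x).symm.trans (hall y),
    ⟨⟨.inl 0, inl_mem i j 0⟩⟩⟩

/-- One branch vertex and all new vertices of the first triangle. -/
def Z (N M : ℕ) : Set (SubV butterfly (L N M)) :=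
  {x | ∃ k, k ≤ N ∧ x = pos butterfly (L N M) e12 k}

lemma Z_conn (N M : ℕ) : ((subdivision butterfly (L N M)).induce (Z N M)).Connected := by
  have h0 : pos butterfly (L N M) e12 0 ∈ Z N M := ⟨0, Nat.zero_le _, rfl⟩
  have hall : ∀ x : Z N M, ((subdivision butterfly (L N M)).induce (Z N M)).Reachable ⟨_, h0⟩ x := by
    rintro ⟨x, k, hk, rfl⟩
    exact reach_up (Z N M) ⟨_, h0⟩ e12 k (by rw [L12]; omega)
      (fun l hl => ⟨l, hl.trans hk, rfl⟩) (SimpleGraph.Reachable.refl _)
  exact (SimpleGraph.connected_iff _).2 ⟨fun x y => (hall x).symm.trans (hall y), ⟨⟨_, h0⟩⟩⟩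

/-! ### The graphs -/

section Graph

variable (G : Type) [Group G] [Finite G]

/-- The left side of the incidence relation. -/
abbrev LS : Type := (G × G) ⊕ Fin (Nat.card G + 1)

/-- The right side of the incidence relation. -/
abbrev RS : Type := G ⊕ (G ⊕ G)

/-- The vertices. -/
abbrev Vx : Type := (LS G ⊕ RS G) ⊕ ({p : LS G × RS G // GA G p.1 p.2} ⊕ Unit)

/-- The graph. -/
def X : SimpleGraph (Vx G) where
  Adj
    | .inl _, .inl _ => False
    | .inl (.inl x), .inr (.inl p) => x ≠ p.1.1
    | .inl (.inr y), .inr (.inl p) => y ≠ p.1.2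
    | .inr (.inl p), .inl (.inl x) => x ≠ p.1.1
    | .inr (.inl p), .inl (.inr y) => y ≠ p.1.2
    | .inl (.inl _), .inr (.inr _) => True
    | .inr (.inr _), .inl (.inl _) => True
    | .inl (.inr _), .inr (.inr _) => False
    | .inr (.inr _), .inl (.inr _) => False
    | .inr (.inl p), .inr (.inl q) => p ≠ q
    | .inr (.inl _), .inr (.inr _) => True
    | .inr (.inr _), .inr (.inl _) => True
    | .inr (.inr _), .inr (.inr _) => False
  symm := ⟨by
    rintro ((x | x) | (x | x)) ((y | y) | (y | y)) h <;> first | exact h | exact fun e => h e.symm⟩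
  loopless := ⟨by
    rintro ((x | x) | (x | x)) h <;> first | exact h | exact h rfl⟩

/-- The left numbering. -/
noncomputable def nL : LS G ≃ Fin (Nat.card (LS G)) := Finite.equivFin _

/-- The right numbering. -/
noncomputable def nR : RS G ≃ Fin (Nat.card (RS G)) := Finite.equivFin _

/-- The sets representing the graph. -/
noncomputable def rep : Vx G → Set (SubV butterfly (L (Nat.card (LS G)) (Nat.card (RS G))))
  | .inl (.inl x) => {P _ _ (nL G x)}
  | .inl (.inr y) => {Q _ _ (nR G y)}
  | .inr (.inl p) => T _ _ (nL G p.1.1) (nR G p.1.2)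
  | .inr (.inr _) => Z _ _

lemma rep_conn (u : Vx G) : ((subdivision butterfly _).induce (rep G u)).Connected := by
  rcases u with (x | y) | (p | u)
  · exact (SimpleGraph.connected_iff _).2 ⟨fun a b => by
      obtain ⟨a, ha⟩ := a
      obtain ⟨b, hb⟩ := b
      have : a = b := (Set.mem_singleton_iff.1 ha).trans (Set.mem_singleton_iff.1 hb).symm
      subst this
      exact SimpleGraph.Reachable.refl _, ⟨⟨_, rfl⟩⟩⟩
  · exact (SimpleGraph.connected_iff _).2 ⟨fun a b => by
      obtain ⟨a, ha⟩ := a
      obtain ⟨b, hb⟩ := b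
      have : a = b := (Set.mem_singleton_iff.1 ha).trans (Set.mem_singleton_iff.1 hb).symm
      subst this
      exact SimpleGraph.Reachable.refl _, ⟨⟨_, rfl⟩⟩⟩
  · exact T_conn _ _ _ _
  · exact Z_conn _ _

lemma P_mem_Z {N M : ℕ} (i : Fin N) : P N M i ∈ Z N M := ⟨i + 1, i.2, rfl⟩

lemma Q_not_mem_Z {N M : ℕ} (j : Fin M) : Q N M j ∉ Z N M := by
  rintro ⟨k, hk, h⟩
  exact e12_ne (pos_inj e12 e34 k j (by rw [L12]; omega) (by rw [L34]; exact j.2) h.symm).1

lemma one_mem_Z {N M : ℕ} : .inl 1 ∈ Z N M := ⟨0, Nat.zero_le _, by rw [pos_zero]; rfl⟩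

/-- The sets represent the graph. -/
lemma rep_spec (u v : Vx G) (huv : u ≠ v) : (X G).Adj u v ↔ (rep G u ∩ rep G v).Nonempty := by
  have hPT : ∀ (x : LS G) (p : {p : LS G × RS G // GA G p.1 p.2}),
      (x ≠ p.1.1 ↔ P _ (Nat.card (RS G)) (nL G x) ∈ T _ _ (nL G p.1.1) (nR G p.1.2)) := by
    intro x p
    constructor
    · intro h
      exact ⟨fun e => h ((nL G).injective (P_inj e)), P_ne_Q _ _⟩
    · rintro h rfl
      exact h.1 rfl
  have hQT : ∀ (y : RS G) (p : {p : LS G × RS G // GA G p.1 p.2}),
      (y ≠ p.1.2 ↔ Q (Nat.card (LS G)) _ (nR G y) ∈ T _ _ (nL G p.1.1) (nR G p.1.2)) := by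
    intro x p
    constructor
    · intro h
      exact ⟨fun e => P_ne_Q _ _ e.symm, fun e => h ((nR G).injective (Q_inj e))⟩
    · rintro h rfl
      exact h.2 rfl
  rcases u with (x | y) | (p | u) <;> rcases v with (x' | y') | (p' | u')
  · -- a, a
    refine iff_of_false id ?_
    rintro ⟨t, ht, ht'⟩
    have h1 := (Set.mem_singleton_iff.1 ht).symm.trans (Set.mem_singleton_iff.1 ht')
    exact huv (by rw [(nL G).injective (P_inj h1)])
  · refine iff_of_false id ?_
    rintro ⟨t, ht, ht'⟩
    exact P_ne_Q _ _ ((Set.mem_singleton_iff.1 ht).symm.trans (Set.mem_singleton_iff.1 ht'))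
  · show x ≠ p'.1.1 ↔ _
    rw [hPT]
    exact (Set.singleton_inter_nonempty).symm
  · exact iff_of_true trivial ⟨_, rfl, P_mem_Z _⟩
  · refine iff_of_false id ?_
    rintro ⟨t, ht, ht'⟩
    exact P_ne_Q _ _ ((Set.mem_singleton_iff.1 ht').symm.trans (Set.mem_singleton_iff.1 ht))
  · refine iff_of_false id ?_
    rintro ⟨t, ht, ht'⟩
    have h1 := (Set.mem_singleton_iff.1 ht).symm.trans (Set.mem_singleton_iff.1 ht')
    exact huv (by rw [(nR G).injective (Q_inj h1)])
  · show y ≠ p'.1.2 ↔ _
    rw [hQT]
    exact (Set.singleton_inter_nonempty).symm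
  · refine iff_of_false id ?_
    rintro ⟨t, ht, ht'⟩
    rw [Set.mem_singleton_iff.1 ht] at ht'
    exact Q_not_mem_Z _ ht'
  · show x' ≠ p.1.1 ↔ _
    rw [hPT]
    exact (Set.inter_singleton_nonempty).symm
  · show y' ≠ p.1.2 ↔ _
    rw [hQT]
    exact (Set.inter_singleton_nonempty).symm
  · refine iff_of_true (fun h => huv (by rw [h])) ⟨.inl 0, inl_mem _ _ _, inl_mem _ _ _⟩
  · exact iff_of_true trivial ⟨.inl 1, inl_mem _ _ _, one_mem_Z⟩
  · exact iff_of_true trivial ⟨_, P_mem_Z _, rfl⟩
  · refine iff_of_false id ?_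
    rintro ⟨t, ht, ht'⟩
    rw [Set.mem_singleton_iff.1 ht'] at ht
    exact Q_not_mem_Z _ ht
  · exact iff_of_true trivial ⟨.inl 1, one_mem_Z, inl_mem _ _ _⟩
  · exact absurd rfl huv

/-- The graph belongs to the class of the butterfly. -/
lemma X_inClass : InClass butterfly (X G) := by
  refine ⟨L (Nat.card (LS G)) (Nat.card (RS G)),
    fun u => (⊤ : (subdivision butterfly _).Subgraph).induce (rep G u), fun u => ?_, ?_⟩
  · exact SimpleGraph.connected_induce_iff.1 (rep_conn G u)
  · intro u v huv
    exact rep_spec G u v huv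

/-! ### Automorphisms -/

variable {G}

/-- The non-neighbours. -/
def NN (v : Vx G) : Set (Vx G) := {w | w ≠ v ∧ ¬ (X G).Adj v w}

lemma NN_ncard (φ : X G ≃g X G) (v : Vx G) : (NN (φ v)).ncard = (NN v).ncard := by
  have : NN (φ v) = φ '' NN v := by
    ext w
    constructor
    · rintro ⟨h1, h2⟩
      refine ⟨φ.symm w, ⟨fun h => h1 ?_, fun h => h2 ?_⟩, by simp⟩
      · rw [← h]; simp
      · have := φ.map_adj_iff.2 h
        simpa using this
    · rintro ⟨w, ⟨h1, h2⟩, rfl⟩
      exact ⟨fun h => h1 (φ.injective h), fun h => h2 (φ.map_adj_iff.1 h)⟩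
  rw [this, Set.ncard_image_of_injective _ φ.injective]

lemma card_pos : 0 < Nat.card G := Nat.card_pos

omit [Group G] in
lemma card_RS : Nat.card (RS G) = 3 * Nat.card G := by
  simp [RS, Nat.card_sum]
  ring

lemma card_LS : 3 ≤ Nat.card (LS G) := by
  have h := card_pos (G := G)
  simp only [LS, Nat.card_sum, Nat.card_prod, Nat.card_eq_fintype_card, Fintype.card_fin]
  nlinarith

lemma NN_e (p : {p : LS G × RS G // GA G p.1 p.2}) :
    NN (.inr (.inl p) : Vx G) = {.inl (.inl p.1.1), .inl (.inr p.1.2)} := by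
  ext w
  rcases w with (x | y) | (q | u)
  · constructor
    · rintro ⟨-, h⟩
      have h' : ¬ x ≠ p.1.1 := h
      rw [not_not] at h'
      left; rw [h']
    · rintro (h | h)
      · refine ⟨by simp, fun h' => h' ?_⟩
        simpa using h
      · cases h
  · constructor
    · rintro ⟨-, h⟩
      have h' : ¬ y ≠ p.1.2 := h
      rw [not_not] at h'
      right; rw [h']; rfl
    · rintro (h | h)
      · cases h
      · refine ⟨by simp, fun h' => h' ?_⟩
        have h2 : (.inl (.inr y) : Vx G) = .inl (.inr p.1.2) := h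
        simpa using h2
  · constructor
    · rintro ⟨h1, h2⟩
      exact absurd (fun h => h1 (by rw [h])) h2
    · rintro (h | h) <;> cases h
  · constructor
    · rintro ⟨-, h⟩
      exact absurd trivial h
    · rintro (h | h) <;> cases h

lemma NN_e_ncard (p : {p : LS G × RS G // GA G p.1 p.2}) :
    (NN (.inr (.inl p) : Vx G)).ncard = 2 := by
  rw [NN_e, Set.ncard_pair (by simp)]

lemma NN_z (u : Unit) : NN (.inr (.inr u) : Vx G) = Set.range fun y => .inl (.inr y) := by
  ext w
  rcases w with (x | y) | (q | v)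
  · exact iff_of_false (fun h => h.2 trivial) (by rintro ⟨y, h⟩; cases h)
  · exact iff_of_true ⟨by simp, id⟩ ⟨y, rfl⟩
  · exact iff_of_false (fun h => h.2 trivial) (by rintro ⟨y, h⟩; cases h)
  · exact iff_of_false (fun h => h.1 rfl) (by rintro ⟨y, h⟩; cases h)

lemma NN_z_ncard (u : Unit) : (NN (.inr (.inr u) : Vx G)).ncard = 3 * Nat.card G := by
  rw [NN_z, ← card_RS, ← Set.image_univ, Set.ncard_image_of_injective, Set.ncard_univ]
  intro a b h
  simpa using h

lemma NN_a_ncard (x : LS G) : 3 * Nat.card G < (NN (.inl (.inl x) : Vx G)).ncard := by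
  have hsub : NN (.inr (.inr ()) : Vx G) ⊂ NN (.inl (.inl x)) := by
    rw [NN_z, Set.ssubset_iff_exists]
    constructor
    · rintro _ ⟨y, rfl⟩
      exact ⟨by simp, id⟩
    · have : ∃ x' : LS G, x' ≠ x := by
        by_contra hc
        push Not at hc
        have h1 : Nat.card (LS G) ≤ 1 := Finite.card_le_one_iff_subsingleton.2
          ⟨fun a b => (hc a).trans (hc b).symm⟩
        have := card_LS (G := G)
        omega
      obtain ⟨x', hx'⟩ := this
      refine ⟨.inl (.inl x'), ⟨by simpa using hx', id⟩, ?_⟩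
      rintro ⟨y, h⟩
      cases h
  rw [← NN_z_ncard ()]
  exact Set.ncard_lt_ncard hsub (Set.toFinite _)

lemma NN_b_ncard (y : RS G) : 3 * Nat.card G < (NN (.inl (.inr y) : Vx G)).ncard := by
  classical
  let f : RS G ⊕ Unit → Vx G := fun t => match t with
    | .inl y' => if y' = y then .inr (.inr ()) else .inl (.inr y')
    | .inr _ => .inl (.inl (.inr 0))
  have hf : Function.Injective f := by
    rintro (a | a) (b | b) h
    · simp only [f] at h
      split_ifs at h with h1 h2 h2
      · rw [h1, h2]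
      · simpa using h
    · simp only [f] at h
      split_ifs at h
      cases h
    · simp only [f] at h
      split_ifs at h
      cases h
    · rfl
  have hsub : f '' Set.univ ⊆ NN (.inl (.inr y)) := by
    rintro _ ⟨a | a, -, rfl⟩
    · simp only [f]
      split_ifs with h
      · exact ⟨by simp, id⟩
      · exact ⟨by simpa using h, id⟩
    · exact ⟨by simp [f], id⟩
  have h1 := Set.ncard_le_ncard hsub (Set.toFinite _)
  rw [Set.ncard_image_of_injective _ hf, Set.ncard_univ, Nat.card_sum, card_RS] at h1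
  simp at h1
  omega

/-- Automorphisms preserve the vertices of the third kind. -/
lemma map_e (φ : X G ≃g X G) (p : {p : LS G × RS G // GA G p.1 p.2}) :
    ∃ q, φ (.inr (.inl p)) = .inr (.inl q) := by
  have h := NN_ncard φ (.inr (.inl p))
  rw [NN_e_ncard] at h
  have hg := card_pos (G := G)
  rcases hv : φ (.inr (.inl p)) with (x | y) | (q | u) <;> rw [hv] at h
  · have := NN_a_ncard x
    omega
  · have := NN_b_ncard y
    omega
  · exact ⟨q, rfl⟩
  · rw [NN_z_ncard] at h
    omega

lemma map_z (φ : X G ≃g X G) : φ (.inr (.inr ())) = .inr (.inr ()) := by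
  have h := NN_ncard φ (.inr (.inr ()))
  rw [NN_z_ncard] at h
  have hg := card_pos (G := G)
  rcases hv : φ (.inr (.inr ())) with (x | y) | (q | u) <;> rw [hv] at h
  · have := NN_a_ncard x
    omega
  · have := NN_b_ncard y
    omega
  · rw [NN_e_ncard] at h
    omega

lemma map_b (φ : X G ≃g X G) (y : RS G) : ∃ y', φ (.inl (.inr y)) = .inl (.inr y') := by
  have h1 : ¬ (X G).Adj (φ (.inr (.inr ()))) (φ (.inl (.inr y))) := fun h =>
    φ.map_adj_iff.1 h
  rw [map_z] at h1
  have h2 : φ (.inl (.inr y)) ≠ .inr (.inr ()) := by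
    intro h
    rw [← map_z φ] at h
    have := φ.injective h
    cases this
  rcases hv : φ (.inl (.inr y)) with (x | y') | (q | u) <;> rw [hv] at h1 h2
  · exact absurd trivial h1
  · exact ⟨y', rfl⟩
  · exact absurd trivial h1
  · exact absurd rfl h2

lemma map_a (φ : X G ≃g X G) (x : LS G) : ∃ x', φ (.inl (.inl x)) = .inl (.inl x') := by
  rcases hv : φ (.inl (.inl x)) with (x' | y) | (q | u)
  · exact ⟨x', rfl⟩
  · exfalso
    obtain ⟨y', hy'⟩ := map_b φ.symm y
    rw [← hv] at hy'
    simp at hy'
  · exfalso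
    obtain ⟨y', hy'⟩ := map_e φ.symm q
    rw [← hv] at hy'
    simp at hy'
  · exfalso
    have h := map_z φ.symm
    have : φ.symm (.inr (.inr u)) = .inl (.inl x) := by rw [← hv]; simp
    rw [show (Sum.inr (Sum.inr u) : Vx G) = Sum.inr (Sum.inr ()) from rfl, h] at this
    cases this

lemma map_e_spec (φ : X G ≃g X G) (p q : {p : LS G × RS G // GA G p.1 p.2})
    (h : φ (.inr (.inl p)) = .inr (.inl q)) {x' : LS G} {y' : RS G}
    (hx : φ (.inl (.inl p.1.1)) = .inl (.inl x')) (hy : φ (.inl (.inr p.1.2)) = .inl (.inr y')) :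
    q.1 = (x', y') := by
  have h1 : ¬ (X G).Adj (φ (.inr (.inl p))) (φ (.inl (.inl p.1.1))) := fun h =>
    (φ.map_adj_iff.1 h : p.1.1 ≠ p.1.1) rfl
  have h2 : ¬ (X G).Adj (φ (.inr (.inl p))) (φ (.inl (.inr p.1.2))) := fun h =>
    (φ.map_adj_iff.1 h : p.1.2 ≠ p.1.2) rfl
  rw [h, hx] at h1
  rw [h, hy] at h2
  have h1' : ¬ x' ≠ q.1.1 := h1
  have h2' : ¬ y' ≠ q.1.2 := h2
  rw [not_not] at h1' h2'
  rw [h1', h2']

lemma map_GA (φ : X G ≃g X G) (x x' : LS G) (y y' : RS G)
    (hx : φ (.inl (.inl x)) = .inl (.inl x')) (hy : φ (.inl (.inr y)) = .inl (.inr y'))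
    (h : GA G x y) : GA G x' y' := by
  obtain ⟨q, hq⟩ := map_e φ ⟨(x, y), h⟩
  have h1 := map_e_spec φ ⟨(x, y), h⟩ q hq hx hy
  have h2 := q.2
  rw [h1] at h2
  exact h2

/-- The action of the group on the vertices. -/
def actFun (γ : G) : Vx G → Vx G
  | .inl (.inl x) => .inl (.inl (tlL γ x))
  | .inl (.inr y) => .inl (.inr (tlR γ y))
  | .inr (.inl p) => .inr (.inl ⟨(tlL γ p.1.1, tlR γ p.1.2), (GA_tl γ _ _).1 p.2⟩)
  | .inr (.inr u) => .inr (.inr u)

lemma actFun_mul (γ δ : G) (v : Vx G) : actFun (γ * δ) v = actFun γ (actFun δ v) := by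
  rcases v with (x | y) | (p | u)
  · simp only [actFun, tlL_mul]
  · simp only [actFun, tlR_mul]
  · simp only [actFun, tlL_mul, tlR_mul]
  · rfl

lemma actFun_one (v : Vx G) : actFun 1 v = v := by
  rcases v with (x | y) | (p | u)
  · simp only [actFun, tlL_one]
  · simp only [actFun, tlR_one]
  · simp only [actFun, tlL_one, tlR_one]
  · rfl

lemma tlL_inj (γ : G) {x x' : LS G} (h : tlL γ x = tlL γ x') : x = x' := (eL γ).injective h
lemma tlR_inj (γ : G) {x x' : RS G} (h : tlR γ x = tlR γ x') : x = x' := (eR γ).injective h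

lemma actFun_adj (γ : G) (u v : Vx G) (h : (X G).Adj u v) :
    (X G).Adj (actFun γ u) (actFun γ v) := by
  rcases u with (x | y) | (p | u) <;> rcases v with (x' | y') | (p' | u') <;>
    first
      | exact h
      | exact fun e => h (tlL_inj γ e)
      | exact fun e => h (tlR_inj γ e)
      | skip
  intro e
  have e1 := congrArg (fun q => q.1.1) e
  have e2 := congrArg (fun q => q.1.2) e
  exact h (Subtype.ext (Prod.ext (tlL_inj γ e1) (tlR_inj γ e2)))

/-- The action of the group by automorphisms. -/
def actIso (γ : G) : X G ≃g X G where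
  toFun := actFun γ
  invFun := actFun γ⁻¹
  left_inv v := by rw [← actFun_mul, inv_mul_cancel, actFun_one]
  right_inv v := by rw [← actFun_mul, mul_inv_cancel, actFun_one]
  map_rel_iff' := by
    intro u v
    constructor
    · intro h
      have := actFun_adj γ⁻¹ _ _ h
      simp only [Equiv.coe_fn_mk] at this
      rwa [← actFun_mul, ← actFun_mul, inv_mul_cancel, actFun_one, actFun_one] at this
    · exact actFun_adj γ u v

/-- The action is a homomorphism. -/
def actHom : G →* (X G ≃g X G) where
  toFun := actIso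
  map_one' := by
    ext v
    exact actFun_one v
  map_mul' γ δ := by
    ext v
    exact actFun_mul γ δ v

lemma actHom_bij : Function.Bijective (actHom (G := G)) := by
  constructor
  · intro γ δ h
    have h1 : actFun γ (.inl (.inr (.inl 1)) : Vx G) = actFun δ (.inl (.inr (.inl 1))) :=
      congrArg (fun φ : X G ≃g X G => φ (.inl (.inr (.inl 1)))) h
    simpa [actFun, tlR] using h1
  · intro φ
    choose α hα using map_a φ
    choose α' hα' using map_a φ.symm
    choose β hβ using map_b φ
    choose β' hβ' using map_b φ.symm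
    let A : LS G ≃ LS G :=
      { toFun := α
        invFun := α'
        left_inv := fun x => by
          have h1 := hα' (α x)
          rw [← hα x] at h1
          simpa using h1.symm
        right_inv := fun x => by
          have h1 := hα (α' x)
          rw [← hα' x] at h1
          simpa using h1.symm }
    let B : RS G ≃ RS G :=
      { toFun := β
        invFun := β'
        left_inv := fun x => by
          have h1 := hβ' (β x)
          rw [← hβ x] at h1
          simpa using h1.symm
        right_inv := fun x => by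
          have h1 := hβ (β' x)
          rw [← hβ' x] at h1
          simpa using h1.symm }
    have hGA : ∀ x y, GA G x y ↔ GA G (A x) (B y) := by
      intro x y
      constructor
      · exact map_GA φ x (α x) y (β y) (hα x) (hβ y)
      · refine map_GA φ.symm (α x) x (β y) y ?_ ?_
        · rw [← hα x]; simp
        · rw [← hβ y]; simp
    obtain ⟨γ, h1, h2⟩ := GA_rigid A B hGA
    refine ⟨γ, ?_⟩
    ext v
    show actFun γ v = φ v
    rcases v with (x | y) | (p | u)
    · rw [hα x]
      show (.inl (.inl (tlL γ x)) : Vx G) = _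
      rw [← h1 x]
      rfl
    · rw [hβ y]
      show (.inl (.inr (tlR γ y)) : Vx G) = _
      rw [← h2 y]
      rfl
    · obtain ⟨q, hq⟩ := map_e φ p
      rw [hq]
      have h3 := map_e_spec φ p q hq (hα p.1.1) (hβ p.1.2)
      show (.inr (.inl _) : Vx G) = _
      congr 2
      apply Subtype.ext
      rw [h3]
      exact Prod.ext (h1 _).symm (h2 _).symm
    · exact (map_z φ).symm

end Graph

lemma InClass.of_iso {m : ℕ} {Y : SimpleGraph (Fin m)} {U W : Type} {X : SimpleGraph U}
    {X' : SimpleGraph W} (e : X' ≃g X) (h : InClass Y X) : InClass Y X' := by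
  obtain ⟨len, S, h1, h2⟩ := h
  refine ⟨len, fun w => S (e w), fun w => h1 _, fun u v huv => ?_⟩
  rw [← e.map_adj_iff]
  exact h2 _ _ (fun h => huv (e.injective h))

/-- **The class of the butterfly is universal.** -/
theorem result : Universal butterfly := by
  intro G _ _
  obtain ⟨n, ⟨f⟩⟩ := Finite.exists_equiv_fin (Vx G)
  have i : (X G).comap f.symm ≃g X G := SimpleGraph.Iso.comap f.symm (X G)
  exact ⟨n, (X G).comap f.symm, (X_inClass G).of_iso i,
    ⟨(autCongr i).trans (MulEquiv.ofBijective actHom actHom_bij).symm⟩⟩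

end Pool.Agent.Results.MP_f0827e_co.Butterfly
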